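import Mathlib
import Pool.Agent.Helper15_DD.Main

/-!
# Turing determinacy and dichotomies for arbitrary sets of reals

Let `CC` be a family of closed sets that contains the empty set and all closed subsets of its
members. A set of reals is small if it is covered by countably many members of `CC`. For every set
`E` of reals the explicit set `Vs CC E` is Turing invariant, and player I wins the game with this
payoff set if and only if `E` is small. If the game is determined and `E` is not small, then closed
covers of the products of `E` with other sets that are not small have members that contain large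
closed rectangles. If `CC` consists of the closed sets that are null for all measures in a set `M`
of finite measures, then `E` is not meager in some closed set all of whose nonempty relatively open
parts are positive for some measure in `M`.

These are one theorem with its most important cases: the countable closed sets and the closed sets
that are disjoint from `D` are the cases of the last dichotomy in which `M` consists of the finite
measures without atoms and of the point masses at the points of `D`, and the statements about sums
and filters follow from the statement about closed rectangles.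
-/

set_option autoImplicit false

namespace Pool.Agent.Results.MP_917879_lc.Dichotomies

open MeasureTheory Pool.Agent.Helper25TD Pool.Agent.Helper56WN Pool.Agent.Helper15DD
open Pool.Agent.Helper15TD (Sums)
open Pool.Agent.Helper56TB (Members)

/-- the game with payoff set `A` is determined -/
def Determined (A : Set (ℕ → Bool)) : Prop := WinsI A ∨ WinsII A

/-- Dichotomies for arbitrary sets of reals, under the assumption that the games with payoff sets
`Vs CC E` are determined. -/
theorem result :
    -- general families of closed sets
    (∀ CC : Set (Set (ℕ → Bool)), Hereditary CC → ∀ E : Set (ℕ → Bool),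
      TuringInvariant (Vs CC E) ∧ (WinsI (Vs CC E) ↔ Small CC E) ∧
      (Determined (Vs CC E) → ¬ Small CC E →
        ∀ CC' : Set (Set (ℕ → Bool)), Hereditary CC' → ∀ F : Set (ℕ → Bool), ¬ Small CC' F →
          ∀ K : ℕ → Set ((ℕ → Bool) × (ℕ → Bool)), (∀ k, IsClosed (K k)) → E ×ˢ F ⊆ ⋃ k, K k →
            ∃ (k : ℕ) (P Q : Set (ℕ → Bool)), IsClosed P ∧ IsClosed Q ∧
              ¬ Small CC (E ∩ P) ∧ ¬ Small CC' (F ∩ Q) ∧ P ×ˢ Q ⊆ K k)) ∧
    -- the closed sets that are null for all measures in `M`
    (∀ M : Set (Measure (ℕ → Bool)), (∀ μ ∈ M, IsFiniteMeasure μ) → ∀ E : Set (ℕ → Bool),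
      Determined (Vs (NullFor M) E) → ¬ Small (NullFor M) E →
        ∃ P : Set (ℕ → Bool), IsClosed P ∧ P.Nonempty ∧
          (∀ O, IsOpen O → (P ∩ O).Nonempty → ∃ μ ∈ M, μ (P ∩ O) ≠ 0) ∧
          ¬ IsMeagre {p : P | (p : ℕ → Bool) ∈ E}) ∧
    -- the countable closed sets
    (∀ E : Set (ℕ → Bool), Determined (Vs {C | IsClosed C ∧ C.Countable} E) → ¬ E.Countable →
      ∃ P : Set (ℕ → Bool), Perfect P ∧ P.Nonempty ∧ ¬ IsMeagre {p : P | (p : ℕ → Bool) ∈ E}) ∧
    -- the closed sets that are disjoint from `D`
    (∀ E D : Set (ℕ → Bool), Determined (Vs {C | IsClosed C ∧ Disjoint C D} E) →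
      ¬ Small {C | IsClosed C ∧ Disjoint C D} E →
        ∃ P : Set (ℕ → Bool), IsClosed P ∧ P.Nonempty ∧ P ⊆ closure (P ∩ D) ∧
          ¬ IsMeagre {p : P | (p : ℕ → Bool) ∈ E}) ∧
    -- the closed null sets
    (∀ E F : Set (ℕ → Bool), Determined (Vs (NullFor {coin}) E) → ¬ Small (NullFor {coin}) E →
      ¬ Small (NullFor {coin}) F → ¬ IsMeagre (Sums E F)) ∧
    (∀ F : Filter ℕ, IsMeagre (Members F) → Determined (Vs (NullFor {coin}) (Members F)) →
      Small (NullFor {coin}) (Members F)) :=
  ⟨fun _ hC E => ⟨turingInvariant_Vs _ E, winsI_Vs_iff hC E, fun h hE _ hC' _ hF _ hK hEF =>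
    rectangles hC hC' (winsII_of_determined hC h hE) hF hK hEF⟩,
    fun _ hM _ h hE => dichotomy hM h hE,
    fun _ h hE => countable_dichotomy h hE,
    fun _ D h hE => separation_dichotomy D h hE,
    fun _ _ h hE hF => not_isMeagre_sums (winsII_of_determined (hereditary_nullFor _) h hE) hF,
    fun _ hm h => small_members hm h⟩

end Pool.Agent.Results.MP_917879_lc.Dichotomies
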