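import Mathlib
import Pool.Agent.Helper15_UN.Menger

/-!
# Turing determinacy and Menger's conjecture

Let `E` and `D` be disjoint sets of reals. If the game with the explicit Turing invariant payoff
set `Vs CC E` is determined, where `CC` is the family of closed sets that are disjoint from `D`, and
the games with the explicit Turing invariant payoff sets `Answers (Rel E d)` are determined, where
`d` is a sequence in `D`, then `E` is covered by countably many members of `CC`, or else `E` has a
dominating image under a function that is continuous outside a countable subset of `D`; never both.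
In the case in which `D` is the complement of `E` this says that `E` is σ-compact or that `E` does
not have Menger's covering property.
-/

set_option autoImplicit false

namespace Pool.Agent.Results.MP_917879_lc.MengerSets

open Pool.Agent.Helper25TD Pool.Agent.Helper56WN Pool.Agent.Helper15UN
open Pool.Agent.Helper15DD (Small Vs turingInvariant_Vs)

/-- the game with payoff set `A` is determined -/
def Determined (A : Set (ℕ → Bool)) : Prop := WinsI A ∨ WinsII A

/-- A dichotomy for arbitrary disjoint pairs of sets of reals, and Menger's conjecture, under the
assumption that explicit games with Turing invariant payoff sets are determined. -/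
theorem result :
    -- all payoff sets are Turing invariant
    (∀ (CC : Set (Set (ℕ → Bool))) (E : Set (ℕ → Bool)), TuringInvariant (Vs CC E)) ∧
    (∀ (E : Set (ℕ → Bool)) (d : ℕ → (ℕ → Bool)), TuringInvariant (Answers (Rel E d))) ∧
    -- disjoint sets
    (∀ E D : Set (ℕ → Bool), Disjoint E D →
      Determined (Vs {C | IsClosed C ∧ Disjoint C D} E) →
      (∀ d : ℕ → (ℕ → Bool), (∀ j, d j ∈ D) → Determined (Answers (Rel E d))) →
      (Small {C | IsClosed C ∧ Disjoint C D} E ↔
        ¬ ∃ (D0 : Set (ℕ → Bool)) (F : (ℕ → Bool) → ℕ → ℕ), D0 ⊆ D ∧ D0.Countable ∧
          ContinuousOn F D0ᶜ ∧ Dominates F E)) ∧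
    -- Menger sets
    (∀ E : Set (ℕ → Bool), Menger E →
      Determined (Vs {C | IsClosed C ∧ Disjoint C Eᶜ} E) →
      (∀ d : ℕ → (ℕ → Bool), (∀ j, d j ∈ Eᶜ) → Determined (Answers (Rel E d))) →
      IsSigmaCompact E) :=
  ⟨fun CC E => turingInvariant_Vs CC E, fun E d => turingInvariant_answers (Rel E d),
    fun _ _ hED h1 h2 => small_iff hED h1 h2, fun _ hE h1 h2 => hE.isSigmaCompact h1 h2⟩

end Pool.Agent.Results.MP_917879_lc.MengerSets
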