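import Mathlib
import Pool.Agent.Helper56_MB.Converse

/-!
# Turing determinacy and the Baire property of upward closed sets

For every upward closed set `B` of reals, there are countably many explicit Turing invariant sets
such that the corresponding games are all determined if and only if `B` has the Baire property. So
Turing determinacy implies that every upward closed set of reals has the Baire property.
-/

set_option autoImplicit false

namespace Pool.Agent.Results.MP_917879_lc.MonotoneBaire

open Pool.Agent.Helper25TD Pool.Agent.Helper56TB Pool.Agent.Helper56MB

/-- An upward closed set `B` of reals has the Baire property if and only if the games whose payoff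
sets are the Turing invariant sets `Clocked (Limit B s)` are determined. -/
theorem result (B : Set (ℕ → Bool)) (hB : IsUpperSet B) :
    (∀ s : List Bool, TuringInvariant (Clocked (Limit B s))) ∧
      ((∀ s : List Bool, WinsI (Clocked (Limit B s)) ∨ WinsII (Clocked (Limit B s))) ↔
        BaireMeasurableSet B) :=
  ⟨fun s => turingInvariant_clocked (Limit B s), determined_iff_baire hB⟩

end Pool.Agent.Results.MP_917879_lc.MonotoneBaire
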