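import Mathlib
import Pool.Agent.TDV.All

/-!
# Turing determinacy is determinacy for invariance under two permutations of the positions

`pu` and `pv` are two explicit permutations of the positions `0, 1, 2, ...` (of orders six and
three).

1. There is one Borel map `K` from reals to reals such that for EVERY set `A` of reals which is
   invariant under the two permutations the set `K ⁻¹' A` is Turing invariant, and each player has
   a winning strategy for `K ⁻¹' A` if and only if he has one for `A`. Conversely, every Turing
   invariant set is invariant under the two permutations. So Turing determinacy is the same as the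
   determinacy of all sets invariant under these two permutations.
2. Let `H` be a countable group of permutations of the positions which is a torsion group (for
   example the group generated by one of the two permutations), or whose finitely generated
   subgroups have subexponential growth (for example an abelian group), or which preserves finitely
   additive measures that do not neglect the positions of the players. Then there are Borel sets
   `P`, `Q` and a Borel map `D` such that for EVERY set `B` of reals the set `P ∪ (Q ∩ D ⁻¹' B)` is
   invariant under `H`, and each player has a winning strategy for it if and only if he has one for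
   `B`. So the axiom of determinacy is the same as the determinacy of all sets invariant under `H`.
-/

set_option autoImplicit false

namespace Pool.Agent.Results.MP_917879_lc.TwoPermutations

open Pool.Agent.Helper25TD Pool.Agent.TDV
open scoped Pointwise ENNReal

/-- Determinacy of the Turing invariant sets is determinacy of the sets invariant under the two
permutations `pu` and `pv`; determinacy of all sets is determinacy of the sets invariant under any
countable torsion group, any countable group with finitely generated subgroups of subexponential
growth, or any countable group preserving finitely additive measures for which the even numbers and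
the odd numbers are not null. -/
theorem result :
    (∃ K : (ℕ → Bool) → (ℕ → Bool), Measurable K ∧ ∀ A : Set (ℕ → Bool), UVInv A →
      TuringInvariant (K ⁻¹' A) ∧ (WinsI (K ⁻¹' A) ↔ WinsI A) ∧ (WinsII (K ⁻¹' A) ↔ WinsII A)) ∧
    (∀ A : Set (ℕ → Bool), TuringInvariant A → UVInv A) ∧
    (∀ H : Subgroup (Equiv.Perm ℕ), Countable H →
      (Monoid.IsTorsion H ∨
        (∀ S : Set (Equiv.Perm ℕ), S.Finite → S ⊆ H → ∃ m : ℕ, (S ^ m).ncard < 2 ^ m) ∨
        ∀ r < 2, ∃ μ : Set ℕ → ℝ≥0∞, (∀ A B, Disjoint A B → μ (A ∪ B) = μ A + μ B) ∧
          (∀ A, A.Finite → μ A = 0) ∧ (∀ g ∈ H, ∀ A, μ (g '' A) = μ A) ∧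
          0 < μ {n | n % 2 = r} ∧ μ {n | n % 2 = r} < ⊤) →
      ∃ (P Q : Set (ℕ → Bool)) (D : (ℕ → Bool) → (ℕ → Bool)), MeasurableSet P ∧ MeasurableSet Q ∧
        Measurable D ∧ ∀ B : Set (ℕ → Bool),
          (∀ g ∈ H, ∀ x : ℕ → Bool,
            x ∈ P ∪ (Q ∩ D ⁻¹' B) ↔ (fun n => x (g n)) ∈ P ∪ (Q ∩ D ⁻¹' B)) ∧
          (WinsI (P ∪ (Q ∩ D ⁻¹' B)) ↔ WinsI B) ∧ (WinsII (P ∪ (Q ∩ D ⁻¹' B)) ↔ WinsII B)) :=
  ⟨⟨K, ksp_.2.2.2.2, fun A hA => fin_ A (H40.gen hA)⟩, fun A hA => (H40.vInv_iff A).1 (tvi_ A hA),
    main2⟩

end Pool.Agent.Results.MP_917879_lc.TwoPermutations
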